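import Pool.Agent.Q211.AR.Sum

/-!
# The countable direct sum of copies of the integers is not algebraically recurrent
-/

set_option autoImplicit false

open MeasureTheory Pool.Agent.Q211.AR

namespace Pool.Agent.Results.MP_eb99da_pr.DirectSumNotAR

/-- The direct sum of copies of `ℤ` indexed by `ℤ` (written multiplicatively) is not algebraically
recurrent: there is a symmetric probability measure whose support generates it such that for some
`n ≥ 1` the semigroup generated by the walk from time `n` on is, with positive probability, not
the whole group; in fact almost surely the identity is missing from that semigroup for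
some `n`. -/
theorem result : ∃ μ : PMF (Multiplicative (ℤ →₀ ℤ)), Admissible μ ∧
    (∃ n : ℕ, 1 ≤ n ∧ 0 < steps μ {ω | tail ω n ≠ ⊤}) ∧
    ∀ᵐ ω ∂(steps μ), ∃ n : ℕ, 1 ≤ n ∧ (1 : Multiplicative (ℤ →₀ ℤ)) ∉ tail ω n :=
  ⟨Sum.nu Equiv.intEquivNat, Sum.nu_admissible _, pos_of_Strong (Sum.nu_strong _),
    Sum.nu_strong _⟩

end Pool.Agent.Results.MP_eb99da_pr.DirectSumNotAR
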